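import Pool.Agent.K4H54.BM.Crit
import Pool.Agent.K4H54.BM.RC

/-!
# If the Brauer-Manin obstruction to the existence of rational points is the only one for
# rationally connected varieties over `ℚ`, then it is the only obstruction to weak approximation

Let `X` be an affine variety over `ℚ`, given by an ideal `I` in the polynomials in the variables
`x_i`, `i ∈ σ`. For nonzero rational numbers `u`, `b` and a polynomial `h` the *slice* of `X` is the
variety `Y` with three more coordinates and the equation

`y0² - u y1² - b y2² = 1 - u b h(x)²`.

Its points over `x ∈ X` are the quaternions `y0 + y1 i + y2 j + h(x) ij` of norm `1` in the quaternion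
algebra `(u, b)`, with the prescribed last coordinate `h(x)`. Over an algebraic closure of `ℚ` the
slice `Y` is birational to `X × A²`.

`HasRationalPlace I` says that the function field of `X` has a place with values in `ℚ`. If `X` is
integral this means that a smooth proper variety birational to `X` has a rational point (theorems of
Lang and Nishimura). `AdPt I` are the families of a real point and a `p`-adic point of `X` for every
prime `p` (there is no integrality condition, as `X` is regarded as an open subvariety of a proper
variety). `P.Approx` says that `P` is in the closure of `X(ℚ)` in the product of `X(ℝ)` and all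
`X(ℚ_p)`.

(1) Let `X` be any affine variety over `ℚ` and `P` an adelic point of `X`. If every slice `Y` of `X` to
which `P` can be lifted has a rational place, then `P` is in the closure of the rational points.

(2) Slices of geometrically integral and geometrically rationally connected varieties are
geometrically integral and geometrically rationally connected.

(3) Let `Ob` be any rule which assigns to every variety `X` as in (2) a set `Ob X` of adelic points,
such that for every slice `Y → X` the adelic points of `Y` over `Ob X` are in `Ob Y`. If `Ob` is the
only obstruction to the existence of rational points (`Ob X ≠ ∅` implies that a smooth proper model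
of `X` has a rational point, for all `X` as in (2)), then it is the only obstruction to weak
approximation: for all `X` as in (2) the set `Ob X` is in the closure of `X(ℚ)`.

The Brauer-Manin sets (of smooth proper models; adelic points of `X` at smooth points) are such a
rule: for a slice `Y → X` the generic fibre of `Y → X` is a smooth quadric surface and the fibres over
the points of codimension one of a smooth proper model of `X` are geometrically integral (cones over
the smooth conic `y0² - u y1² - b y2² = 0` at worst), so the Brauer group of a smooth proper model of
`Y` is the pull-back of that of `X`. So Q1 for the rationally connected varieties over `ℚ` (existence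
of rational points) is equivalent to the density of `X(ℚ)` in the Brauer-Manin set for all of them.
By (1), the existence in dimension `d + 2` is sufficient for the density in dimension `d`.

Idea of the proof. Let `u < 0` be an integer which is an unramified nonsquare at given primes
`p ∈ S`, `2 ∈ S`, and let `b` be minus the product of these primes. The quaternion algebra `(u, b)` is
ramified at `∞` and at all `p ∈ S`, so that its norm form takes the value `1` on compact sets only.
Let `h₀` be an iterated norm form of `ℚ(√u)`; then `h₀(z)` is small at a place in `S ∪ {∞}` only if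
`z` is small. With `h(x) = c h₀(x - a)`, `c` large at `S ∪ {∞}` and `a` close to `P` at all the bad
places, `P` lifts to the slice, and a rational place of the slice gives a rational point of `X` close
to `a`, hence to `P`, at the places of `S ∪ {∞}`.
-/

set_option autoImplicit false

namespace Pool.Agent.Results.MP_e426f4_ag.ExistenceImpliesDensity

open Pool.Agent.K4H54.BM MvPolynomial

/-- The ideal generated by `I` in the polynomials over an algebraic closure of `ℚ`. -/
noncomputable def geom {σ : Type} (I : Ideal (MvPolynomial σ ℚ)) :
    Ideal (MvPolynomial σ (AlgebraicClosure ℚ)) :=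
  I.map (MvPolynomial.map (algebraMap ℚ (AlgebraicClosure ℚ)))

/-- The affine variety `I` over `ℚ` is integral, geometrically integral, and geometrically
rationally connected. -/
structure GeomRC {σ : Type} (I : Ideal (MvPolynomial σ ℚ)) : Prop where
  /-- the variety is integral -/
  integral : I.IsPrime
  /-- the variety is geometrically integral -/
  geomIntegral : (geom I).IsPrime
  /-- the variety is geometrically rationally connected -/
  ratConn : RatConn (geom I)

/-- A rule which assigns a set of adelic points to every affine variety over `ℚ`. -/
abbrev Obstruction : Type 1 :=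
  ∀ (σ : Type) (I : Ideal (MvPolynomial σ ℚ)), Set (AdPt I)

/-- The rule is compatible with slices: every adelic point `Q` of a slice (with `1 - u b h²` not
identically zero on the variety, and with `(y0, y1, y2) ≠ 0` at all places) over a point of `Ob` is in
`Ob`. -/
def Compatible (Ob : Obstruction) : Prop :=
  ∀ (σ : Type) [Finite σ] (I : Ideal (MvPolynomial σ ℚ)) (u b : ℚ) (h : MvPolynomial σ ℚ),
    GeomRC I → u ≠ 0 → b ≠ 0 → (1 - C (u * b) * h ^ 2 : MvPolynomial σ ℚ) ∉ I →
    ∀ Q : AdPt (slice I u b h), Q.proj ∈ Ob σ I → Q.Off → Q ∈ Ob (Ext σ) (slice I u b h)

/-- If `Ob` is not empty then a smooth proper model has a rational point. -/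
def OnlyForExistence (Ob : Obstruction) : Prop :=
  ∀ (σ : Type) [Finite σ] (I : Ideal (MvPolynomial σ ℚ)), GeomRC I → (Ob σ I).Nonempty →
    HasRationalPlace I

/-- `Ob` is contained in the closure of the rational points. -/
def OnlyForDensity (Ob : Obstruction) : Prop :=
  ∀ (σ : Type) [Finite σ] (I : Ideal (MvPolynomial σ ℚ)), GeomRC I → ∀ P ∈ Ob σ I, P.Approx

lemma geom_slice {σ : Type} (I : Ideal (MvPolynomial σ ℚ)) (u b : ℚ) (h : MvPolynomial σ ℚ) :
    geom (slice I u b h) = slice (geom I) (algebraMap ℚ (AlgebraicClosure ℚ) u)
      (algebraMap ℚ (AlgebraicClosure ℚ) b) (MvPolynomial.map (algebraMap ℚ _) h) :=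
  slice_map _ I u b h

lemma geomRC_slice {σ : Type} {I : Ideal (MvPolynomial σ ℚ)} {u b : ℚ} (h : MvPolynomial σ ℚ)
    (hI : GeomRC I) (hu : u ≠ 0) (hb : b ≠ 0) : GeomRC (slice I u b h) := by
  have hu' : algebraMap ℚ (AlgebraicClosure ℚ) u ≠ 0 := by rwa [Ne, map_eq_zero]
  have hb' : algebraMap ℚ (AlgebraicClosure ℚ) b ≠ 0 := by rwa [Ne, map_eq_zero]
  refine ⟨slice_prime h hI.integral two_ne_zero hu hb, ?_, ?_⟩
  · rw [geom_slice]
    exact slice_prime _ hI.geomIntegral two_ne_zero hu' hb'
  · rw [geom_slice]
    exact slice_ratConn hI.geomIntegral two_ne_zero hu' hb' _ hI.ratConn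

/-- **Main theorem.** -/
theorem result :
    (∀ (σ : Type) [Finite σ] (I : Ideal (MvPolynomial σ ℚ)) (P : AdPt I),
      (∀ (u b : ℚ) (h : MvPolynomial σ ℚ), u ≠ 0 → b ≠ 0 →
        (1 - C (u * b) * h ^ 2 : MvPolynomial σ ℚ) ∉ I →
        ∀ Q : AdPt (slice I u b h), Q.proj = P → Q.Off → HasRationalPlace (slice I u b h)) →
      P.Approx) ∧
    (∀ (σ : Type) (I : Ideal (MvPolynomial σ ℚ)) (u b : ℚ) (h : MvPolynomial σ ℚ),
      GeomRC I → u ≠ 0 → b ≠ 0 → GeomRC (slice I u b h)) ∧
    ∀ Ob : Obstruction, Compatible Ob → OnlyForExistence Ob → OnlyForDensity Ob := by
  refine ⟨fun σ _ I P H => criterion P H, fun σ I u b h hI hu hb => geomRC_slice h hI hu hb,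
    fun Ob hc he σ _ I hI P hP => criterion P fun u b h hu hb hg Q hQP hQ => ?_⟩
  refine he (Ext σ) _ (geomRC_slice h hI hu hb) ⟨Q, hc σ I u b h hI hu hb hg Q ?_ hQ⟩
  rw [hQP]
  exact hP

end Pool.Agent.Results.MP_e426f4_ag.ExistenceImpliesDensity
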