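import Pool.Agent.K4H64.Gf.Unif
import Pool.Agent.K4H64.Gf.Dim

/-!
# The Brauer–Manin obstruction is the only one for 100% of the Fano hypersurface fibrations

Let `V ⊆ ℙ^M` be a smooth projective variety over `ℚ`, and let `Y` be a set of rational points
of `V`, for example all of them, whose closure in the product of `V(ℝ)` and the `V(ℚ_p)`,
`p ≤ w`, is open for all `w`. For `Y = V(ℚ)` this holds if the Brauer–Manin obstruction is the
only obstruction to weak approximation on `V` and `Br V / Br ℚ` is finite, and then the closure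
is given by the Brauer–Manin obstruction.

Let `n ≥ 3` and `2 ≤ d ≤ n`. A family `f` of integral forms `f 0, …, f M` of degree `d` in
`x = (x 0, …, x n)` gives the fibration `X f → V` with total space
`X f : ∑ k, y k * f k (x) = 0` in `V × ℙ^n`, whose fibres are Fano hypersurfaces of degree `d`.

There are functions `m ≤ w` of `H`, tending to infinity, such that for 100% of the families with
coefficients bounded by `H` the following holds: all points of `X f` over `ℝ` and over `ℚ_p`,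
`p ≤ w`, lying over a point of the closure of `Y`, are approximated by rational points of `X f`
over `Y`, at the real place and at all `p ≤ m`, with precision `1 / m`. There is no condition of
smoothness on the points. In particular `X f` has a rational point if it has points over `ℝ` and
`ℚ_p`, `p ≤ w`, lying over the closure of `Y`.
-/

set_option autoImplicit false

namespace Pool.Agent.Results.MP_e426f4_ag.HypersurfaceFibrations

/-- Homogeneous coordinates over `K` in `ℙ^M`. -/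
abbrev Coord (K : Type*) (M : ℕ) : Type _ := Fin (M + 1) → K

/-- `y` are the homogeneous coordinates of a point over `K` of the projective variety
`V : g 0 = g 1 = ⋯ = 0`. -/
def OnV {K : Type*} [Field K] {M N : ℕ} (g : Fin N → MvPolynomial (Fin (M + 1)) ℤ)
    (y : Coord K M) : Prop :=
  y ≠ 0 ∧ ∀ i, MvPolynomial.aeval y (g i) = 0

/-- The projective variety `V : g 0 = g 1 = ⋯ = 0` over `ℚ` is smooth of dimension `r`, by the
Jacobian criterion: the `g i` are homogeneous, and near each point `y` of `V`, over any field `K`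
of characteristic zero, in an open set `h ≠ 0`, the variety `V` is defined by `M - r` of the
equations `g i = 0`, whose differentials at `y` are linearly independent. -/
structure IsSmooth {M N : ℕ} (g : Fin N → MvPolynomial (Fin (M + 1)) ℤ) (r : ℕ) : Prop where
  le : r ≤ M
  homogeneous : ∀ i, ∃ D, (g i).IsHomogeneous D
  jacobian : ∀ (K : Type) [Field K] [CharZero K] (y : Coord K M), OnV g y →
    ∃ (I : Fin (M - r) → Fin N) (h : MvPolynomial (Fin (M + 1)) ℤ), MvPolynomial.aeval y h ≠ 0 ∧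
      (∀ i, h * g i ∈ Ideal.span (Set.range fun j => g (I j))) ∧
      LinearIndependent K (fun (j : Fin (M - r)) (k : Fin (M + 1)) =>
        MvPolynomial.aeval y (MvPolynomial.pderiv k (g (I j))))

/-- Families `f 0, …, f M` of polynomials in `n + 1` variables with integral coefficients. -/
abbrev Families (n M : ℕ) : Type := Fin (M + 1) → MvPolynomial (Fin (n + 1)) ℤ

/-- The families of forms of degree `d` with coefficients bounded by `H`. -/
def ofHeight (n M d H : ℕ) : Set (Families n M) :=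
  {f | ∀ k, (f k).IsHomogeneous d ∧ ∀ α, |(f k).coeff α| ≤ (H : ℤ)}

/-- `(y, x)` are the homogeneous coordinates of a point over `K` of the fibration
`X f : ∑ k, y k * f k (x) = 0` over `V`. -/
def IsPoint {K : Type*} [Field K] {n M N : ℕ} (g : Fin N → MvPolynomial (Fin (M + 1)) ℤ)
    (f : Families n M) (y : Coord K M) (x : Coord K n) : Prop :=
  OnV g y ∧ x ≠ 0 ∧ ∑ k, y k * MvPolynomial.aeval x (f k) = 0

/-- The points `v` and `v'` of a projective space over `K` agree up to `1 / m`. -/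
def Near {K : Type*} [NormedField K] {M : ℕ} (m : ℕ) (v v' : Coord K M) : Prop :=
  ∃ c : K, ∀ i, ‖v i - c * v' i‖ ≤ ‖v‖ / m

/-- The points `y` over `ℝ` and `yp p` over `ℚ_p`, `p ≤ w`, are in the closure of the set `Y` of
rational points, embedded diagonally. -/
def InClosure {M : ℕ} (Y : Set (Coord ℚ M)) (w : ℕ) (y : Coord ℝ M)
    (yp : ∀ (p : ℕ) [Fact p.Prime], Coord ℚ_[p] M) : Prop :=
  ∀ κ : ℕ, 1 ≤ κ → ∃ q ∈ Y, Near κ y (fun k => (q k : ℝ)) ∧
    ∀ (p : ℕ) [Fact p.Prime], p ≤ w → Near κ (yp p) (fun k => (q k : ℚ_[p]))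

/-- For all `w`, the closure of `Y` in the product of `V(ℝ)` and the `V(ℚ_p)`, `p ≤ w`, is
open. -/
def OpenClosure {M N : ℕ} (g : Fin N → MvPolynomial (Fin (M + 1)) ℤ) (Y : Set (Coord ℚ M)) :
    Prop :=
  ∀ (w : ℕ) (y : Coord ℝ M) (yp : ∀ (p : ℕ) [Fact p.Prime], Coord ℚ_[p] M),
    OnV g y → (∀ (p : ℕ) [Fact p.Prime], p ≤ w → OnV g (yp p)) → InClosure Y w y yp →
    ∃ κ : ℕ, 1 ≤ κ ∧ ∀ (y' : Coord ℝ M) (yp' : ∀ (p : ℕ) [Fact p.Prime], Coord ℚ_[p] M),
      OnV g y' → Near κ y y' →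
      (∀ (p : ℕ) [Fact p.Prime], p ≤ w → OnV g (yp' p) ∧ Near κ (yp p) (yp' p)) →
      InClosure Y w y' yp'

/-- All points `(y, x)` and `(yp p, xp p)`, `p ≤ w`, of `X f` over `ℝ` and over `ℚ_p`, for which
`(y, yp)` is in the closure of `Y`, are approximated over `ℝ` and over `ℚ_p`, `p ≤ m`, by rational
points of `X f` over `Y` with precision `1 / m`. -/
def Approximation {n M N : ℕ} (g : Fin N → MvPolynomial (Fin (M + 1)) ℤ) (Y : Set (Coord ℚ M))
    (m w : ℕ) (f : Families n M) : Prop :=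
  ∀ (y : Coord ℝ M) (x : Coord ℝ n) (yp : ∀ (p : ℕ) [Fact p.Prime], Coord ℚ_[p] M)
    (xp : ∀ (p : ℕ) [Fact p.Prime], Coord ℚ_[p] n),
    IsPoint g f y x → (∀ (p : ℕ) [Fact p.Prime], p ≤ w → IsPoint g f (yp p) (xp p)) →
    InClosure Y w y yp →
    ∃ q ∈ Y, ∃ z : Coord ℚ n, IsPoint g f q z ∧
      (Near m y (fun k => (q k : ℝ)) ∧ Near m x (fun i => (z i : ℝ))) ∧
      ∀ (p : ℕ) [Fact p.Prime], p ≤ m →
        Near m (yp p) (fun k => (q k : ℚ_[p])) ∧ Near m (xp p) (fun i => (z i : ℚ_[p]))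

/-- Approximation of all local points over the closure of `Y`, on 100% of the Fano hypersurface
fibrations over a smooth variety. -/
theorem result (n M N r d : ℕ) (hn : 3 ≤ n) (hd : 2 ≤ d) (hdn : d ≤ n)
    (g : Fin N → MvPolynomial (Fin (M + 1)) ℤ) (hV : IsSmooth g r) (Y : Set (Coord ℚ M))
    (hY : ∀ q ∈ Y, OnV g q) (hopen : OpenClosure g Y) :
    ∃ m w : ℕ → ℕ, Filter.Tendsto m Filter.atTop Filter.atTop ∧ (∀ H, m H ≤ w H) ∧
      Filter.Tendsto (fun H : ℕ =>
        (({f | f ∈ ofHeight n M d H ∧ Approximation g Y (m H) (w H) f} : Set _).ncard : ℝ) /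
          ((ofHeight n M d H).ncard : ℝ))
        Filter.atTop (nhds 1) := by
  classical
  obtain ⟨e, he⟩ : ∃ e : ℕ, e = d - 2 := ⟨_, rfl⟩
  have hde : e + 2 = d := by omega
  obtain ⟨h3s, hdeg⟩ := Pool.Agent.Y716.D.dims (s := 1) (e := fun _ => e) le_rfl hn (by
    rw [Fin.sum_univ_one]; omega)
  have hcl := K4H64.Ff.class' (Pool.Agent.Y716.D.class_all (Fin (n + 1)) le_rfl h3s
    (fun _ : Fin 1 => e) hdeg)
  -- two monomials
  obtain ⟨β₁, β₂, hβ⟩ : ∃ β₁ β₂ : Pool.Agent.Y716.Q.mons (Fin (n + 1)) (e + 2), β₁ ≠ β₂ := by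
    refine ⟨⟨_, K4H64.Gf.single_mem (⟨0, by omega⟩ : Fin (n + 1)) (e + 2)⟩,
      ⟨_, K4H64.Gf.single_mem (⟨1, by omega⟩ : Fin (n + 1)) (e + 2)⟩, fun h => ?_⟩
    have h1 := DFunLike.congr_fun (Subtype.ext_iff.mp h) (⟨0, by omega⟩ : Fin (n + 1))
    rw [Finsupp.single_eq_same, Finsupp.single_eq_of_ne (by simp)] at h1
    omega
  -- primitive integral tuples
  obtain ⟨Z, hZ⟩ : ∃ Z : Set (K4H64.Ff.IT (fun _ : Fin 1 => M)), Z =
    {y | (∀ j, Pool.Agent.Y716.Q.Prim (y j)) ∧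
      ∃ q ∈ Y, ∃ r : ℚ, r ≠ 0 ∧ ∀ k, q k = r * (y 0 k : ℚ)} := ⟨_, rfl⟩
  have hZP : ∀ y ∈ Z, ∀ j, Pool.Agent.Y716.Q.Prim (y j) := fun y hy => by
    rw [hZ] at hy; exact hy.1
  have hZg : ∀ y ∈ Z, ∀ i, MvPolynomial.eval (y 0) (g i) = 0 := by
    intro y hy i
    rw [hZ] at hy
    obtain ⟨-, q, hq, s, hs0, hqs⟩ := hy
    obtain ⟨D, hD⟩ := hV.homogeneous i
    have h1 := (hY q hq).2 i
    have h2 : q = fun k => s * ((y 0 k : ℤ) : ℚ) := funext hqs
    rw [h2, K4H64.Gf.aeval_smul hD] at h1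
    have h3 := (mul_eq_zero.mp h1).resolve_left (pow_ne_zero _ hs0)
    rw [← K4H64.Ff.cast_eval] at h3
    exact_mod_cast h3
  -- the closures agree
  have hclos : ∀ (w : ℕ) (v : Coord ℝ M) (vp : ∀ (p : ℕ) [Fact p.Prime], Coord ℚ_[p] M),
      InClosure Y w v vp ↔ K4H64.Gf.Cls Z w v vp := by
    intro w v vp
    constructor
    · intro h κ hκ
      obtain ⟨q, hq, h1, h2⟩ := h κ hκ
      obtain ⟨y, s, hs0, hprim, hqy⟩ := K4H64.Ff.exists_prim q (hY q hq).1
      refine ⟨fun _ => y, ?_, ?_, fun p hpf hpw => ?_⟩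
      · rw [hZ]
        exact ⟨fun _ => hprim, q, hq, s, hs0, hqy⟩
      · exact (K4H64.Ff.Close.scale hs0 hqy).mp h1
      · exact (K4H64.Ff.Close.scale hs0 hqy).mp (h2 p hpw)
    · intro h κ hκ
      obtain ⟨y, hy, h1, h2⟩ := h κ hκ
      rw [hZ] at hy
      obtain ⟨-, q, hq, s, hs0, hqs⟩ := hy
      exact ⟨q, hq, (K4H64.Ff.Close.scale hs0 hqs).mpr h1,
        fun p hpf hpw => (K4H64.Ff.Close.scale hs0 hqs).mpr (h2 p hpw)⟩
  have hopen' : K4H64.Gf.OpenPt g Z := by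
    intro w v vp hv hvp hcls
    have hVR : OnV g v := ⟨hv, K4H64.Gf.onV_of_close hV.homogeneous fun k hk => by
      obtain ⟨y, hyY, h1, -⟩ := hcls k hk
      exact ⟨y 0, hZg y hyY, h1⟩⟩
    have hVP : ∀ (p : ℕ) [Fact p.Prime], p ≤ w → OnV g (vp p) := fun p _ hpw =>
      ⟨hvp p hpw, K4H64.Gf.onV_of_close hV.homogeneous fun k hk => by
        obtain ⟨y, hyY, -, h1⟩ := hcls k hk
        exact ⟨y 0, hZg y hyY, h1 p hpw⟩⟩
    obtain ⟨κ, hκ, h⟩ := hopen w v vp hVR hVP ((hclos w v vp).mpr hcls)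
    refine ⟨κ, hκ, fun v' vp' hv' hvp' => ?_⟩
    exact (hclos w v' vp').mp (h v' vp' ⟨hv'.1, hv'.2.1⟩ hv'.2.2 fun p _ hpw =>
      ⟨⟨(hvp' p hpw).1, (hvp' p hpw).2.1⟩, (hvp' p hpw).2.2⟩)
  obtain ⟨m, w, hm, hmw, hlim⟩ := K4H64.Gf.main3 (Fin (n + 1)) hV.le hcl hV.homogeneous
    (K4H64.Gf.smK_of hV.homogeneous ℝ fun y hy h => hV.jacobian ℝ y ⟨hy, h⟩)
    (fun p _ => K4H64.Gf.smK_of hV.homogeneous ℚ_[p] fun y hy h => hV.jacobian ℚ_[p] y ⟨hy, h⟩)
    hβ hZP hZg (K4H64.Gf.uniform hopen')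
  refine ⟨m, w, hm, hmw, ?_⟩
  -- families indexed by `Fin 1`
  let Φ : Families n M → K4H64.Ff.TS (Fin (n + 1)) (fun _ : Fin 1 => M) := fun f _ => f
  have hΦ : Function.Injective Φ := fun f f' h => congrFun h 0
  have hΦ' : ∀ f : K4H64.Ff.TS (Fin (n + 1)) (fun _ : Fin 1 => M), Φ (f 0) = f := by
    intro f
    funext j
    obtain rfl : j = 0 := Subsingleton.elim _ _
    rfl
  have key := K4H64.Ff.ratio_one
    (fun H : ℕ => K4H64.Ff.totZ (Fin (n + 1)) (fun _ : Fin 1 => M) (fun _ => e) (H : ℝ))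
    (fun H f => K4H64.Gf.Full Z (m H) (w H) f)
    (fun H f => Approximation g Y (m H) (w H) (f 0)) (fun H => Φ '' (ofHeight n M d H))
    (fun H => Φ '' {f | f ∈ ofHeight n M d H ∧ Approximation g Y (m H) (w H) f}) ?_
    ?_ ?_ (fun H => K4H64.Ff.totZ_pos _ _ (Nat.cast_nonneg H)) hlim
  · refine key.congr fun H => ?_
    rw [Set.ncard_image_of_injective _ hΦ, Set.ncard_image_of_injective _ hΦ]
  · intro H f
    rw [K4H64.Ff.mem_totZ]
    constructor
    · rintro ⟨f', hf', rfl⟩ j k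
      rw [Pool.Agent.Y716.Q.isF_iff, hde]
      exact hf' k
    · intro h
      refine ⟨f 0, fun k => ?_, hΦ' f⟩
      have := h 0 k
      rw [Pool.Agent.Y716.Q.isF_iff, hde] at this
      exact this
  · intro H f
    constructor
    · rintro ⟨f', hf', rfl⟩
      exact ⟨⟨f', hf'.1, rfl⟩, hf'.2⟩
    · rintro ⟨⟨f', hf', rfl⟩, h⟩
      exact ⟨f', ⟨hf', h⟩, rfl⟩
  · intro H f _ hA y x yp xp hr hp hcl
    obtain ⟨y', hy', x', hx'1, hx'2, hx'3, hx'4, hx'5⟩ := hA y x yp xp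
      ⟨hr.1.1, hr.2.1, hr.2.2⟩ (fun p _ hpw => ⟨(hp p hpw).1.1, (hp p hpw).2.1, (hp p hpw).2.2⟩)
      ((hclos _ _ _).mp hcl)
    rw [hZ] at hy'
    obtain ⟨-, q, hqY, s, hs0, hqs⟩ := hy'
    refine ⟨q, hqY, fun i => (x' i : ℚ), ⟨hY q hqY, ?_, ?_⟩, ⟨?_, hx'4⟩,
      fun p hpf hpm => ⟨?_, (hx'5 p hpm).2⟩⟩
    · intro h0
      apply hx'1.ne_zero'
      funext i
      have := congrFun h0 i
      simp only [Pi.zero_apply] at this
      exact_mod_cast this
    · have h1 : ((MvPolynomial.eval x' (K4H64.Ff.sp f y' 0) : ℤ) : ℚ) = 0 := by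
        rw [hx'2, Int.cast_zero]
      rw [K4H64.Ff.cast_eval, K4H64.Ff.aeval_sp] at h1
      have h2 : ∑ k, q k * MvPolynomial.aeval (fun i => (x' i : ℚ)) (f 0 k) =
          s * ∑ k, ((y' 0 k : ℤ) : ℚ) * MvPolynomial.aeval (fun i => (x' i : ℚ)) (f 0 k) := by
        rw [Finset.mul_sum]
        refine Finset.sum_congr rfl fun k _ => ?_
        rw [hqs k, mul_assoc]
      rw [h2, h1, mul_zero]
    · exact (K4H64.Ff.Close.scale hs0 hqs).mpr hx'3
    · exact (K4H64.Ff.Close.scale hs0 hqs).mpr (hx'5 p hpm).1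

end Pool.Agent.Results.MP_e426f4_ag.HypersurfaceFibrations
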