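import Pool.Agent.K4H64.Ff.Conv

/-!
# Rational points on 100% of the Fano fibrations over an arbitrary base

Let `Y` be an arbitrary set of rational points of `ℙ^(M 0) × ⋯ × ℙ^(M (s-1))`, for example all the
rational points of a projective variety with `s` linear systems. Let `d j ≥ 2`, `∑ d j ≤ n` and
`n ≥ 3`. A family `f` of integral forms `f j k` of degree `d j` in `x = (x 0, …, x n)`,
`j < s`, `k ≤ M j`, gives the fibration `X f → Y` whose fibre over `y` is the Fano complete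
intersection `∑ k, y j k * f j k (x) = 0`, `j < s`, in `ℙ^n`.

There are functions `m ≤ w` of `H`, tending to infinity, such that for 100% of the families with
coefficients bounded by `H` the following holds. Let `(y v, x v)` be points of `X f` over
`v = ℝ` and `v = ℚ_p`, `p ≤ w`, which are smooth in their fibres, with precision `1 / w`, and
assume that `(y v)` lies in the closure of `Y` (diagonally embedded). Then there are `q ∈ Y` and
a rational point of the fibre over `q` which approximate all the `(y v, x v)`, `v = ℝ` and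
`v = ℚ_p` with `p ≤ m`, with precision `1 / m`.
-/

set_option autoImplicit false

namespace Pool.Agent.Results.MP_e426f4_ag.RandomFanoFibrations

/-- Homogeneous coordinates over `K` in `ℙ^(M 0) × ⋯ × ℙ^(M (s-1))`. -/
abbrev Coord (K : Type*) {s : ℕ} (M : Fin s → ℕ) : Type _ := ∀ j : Fin s, Fin (M j + 1) → K

/-- Families of `∑ (M j + 1)` polynomials in `n + 1` variables with integral coefficients. -/
abbrev Families (n : ℕ) {s : ℕ} (M : Fin s → ℕ) : Type :=
  ∀ j : Fin s, Fin (M j + 1) → MvPolynomial (Fin (n + 1)) ℤ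

/-- The families of forms `f j k` of degree `d j` with coefficients bounded by `H`. -/
def ofHeight (n : ℕ) {s : ℕ} (M d : Fin s → ℕ) (H : ℕ) : Set (Families n M) :=
  {f | ∀ j k, (f j k).IsHomogeneous (d j) ∧ ∀ α, |(f j k).coeff α| ≤ (H : ℤ)}

/-- `(y, x)` are the homogeneous coordinates of a point over `K` of the fibration `X f`. -/
def IsPoint {K : Type*} [Field K] {n s : ℕ} {M : Fin s → ℕ} (f : Families n M) (y : Coord K M)
    (x : Fin (n + 1) → K) : Prop :=
  (∀ j, y j ≠ 0) ∧ x ≠ 0 ∧ ∀ j, ∑ k, y j k * MvPolynomial.aeval x (f j k) = 0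

/-- The minor with columns `a` of the Jacobian matrix, with respect to `x`, of the equations
`∑ k, y j k * f j k (x) = 0`, `j < s`, of the fibre over `y`. -/
noncomputable def minor {K : Type*} [Field K] {n s : ℕ} {M : Fin s → ℕ} (f : Families n M)
    (y : Coord K M) (x : Fin (n + 1) → K) (a : Fin s → Fin (n + 1)) : K :=
  (Matrix.of fun j i : Fin s =>
    ∑ k, y j k * MvPolynomial.aeval x (MvPolynomial.pderiv (a i) (f j k))).det

/-- The point `(y, x)` is a smooth point of its fibre with precision `1 / w`: for homogeneous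
coordinates whose blocks have norm `1`, some minor has norm at least `B / w`. -/
def IsSmooth {K : Type*} [NormedField K] {n s : ℕ} {M : Fin s → ℕ} (d : Fin s → ℕ) (w : ℕ) (B : ℝ)
    (f : Families n M) (y : Coord K M) (x : Fin (n + 1) → K) : Prop :=
  ∃ a : Fin s → Fin (n + 1),
    B * (∏ j, ‖y j‖) * ‖x‖ ^ (∑ j, (d j - 1)) ≤ w * ‖minor f y x a‖

/-- The rational point `q` of a projective space approximates the point `v` over `K`, with
precision `1 / m`. -/
def Near {K : Type*} [NormedField K] {κ : Type*} [Fintype κ] (m : ℕ) (v : κ → K) (q : κ → ℚ) :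
    Prop :=
  ∃ c : K, ∀ i, ‖v i - c * (q i : K)‖ ≤ ‖v‖ / m

/-- Points `(y, x)` and `(yp p, xp p)`, `p ≤ w`, of `X f` over `ℝ` and over `ℚ_p`, smooth in
their fibres with precision `1 / w`, for which `(y, yp)` is in the closure of `Y`, are
approximated over `ℝ` and over `ℚ_p`, `p ≤ m`, by rational points of `X f` over `Y` with precision
`1 / m`. -/
def Approximation {n s : ℕ} {M : Fin s → ℕ} (d : Fin s → ℕ) (Y : Set (Coord ℚ M)) (m w H : ℕ)
    (f : Families n M) : Prop :=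
  ∀ (y : Coord ℝ M) (x : Fin (n + 1) → ℝ) (yp : ∀ (p : ℕ) [Fact p.Prime], Coord ℚ_[p] M)
    (xp : ∀ (p : ℕ) [Fact p.Prime], Fin (n + 1) → ℚ_[p]),
    (IsPoint f y x ∧ IsSmooth d w ((H : ℝ) ^ s) f y x) →
    (∀ (p : ℕ) [Fact p.Prime], p ≤ w →
      IsPoint f (yp p) (xp p) ∧ IsSmooth d w 1 f (yp p) (xp p)) →
    (∀ K : ℕ, 1 ≤ K → ∃ q ∈ Y, (∀ j, Near K (y j) (q j)) ∧
      ∀ (p : ℕ) [Fact p.Prime], p ≤ w → ∀ j, Near K (yp p j) (q j)) →
    ∃ q ∈ Y, ∃ z : Fin (n + 1) → ℚ, IsPoint f q z ∧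
      ((∀ j, Near m (y j) (q j)) ∧ Near m x z) ∧
      ∀ (p : ℕ) [Fact p.Prime], p ≤ m → (∀ j, Near m (yp p j) (q j)) ∧ Near m (xp p) z

/-- Approximation by rational points on 100% of the Fano fibrations over an arbitrary base. -/
theorem result (n s : ℕ) (M d : Fin s → ℕ) (hs : 1 ≤ s) (hn : 3 ≤ n) (hd : ∀ j, 2 ≤ d j)
    (hdn : ∑ j, d j ≤ n) (Y : Set (Coord ℚ M)) (hY : ∀ q ∈ Y, ∀ j, q j ≠ 0) :
    ∃ m w : ℕ → ℕ, Filter.Tendsto m Filter.atTop Filter.atTop ∧ (∀ H, m H ≤ w H) ∧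
      Filter.Tendsto (fun H : ℕ =>
        (({f | f ∈ ofHeight n M d H ∧ Approximation d Y (m H) (w H) H f} : Set _).ncard : ℝ) /
          ((ofHeight n M d H).ncard : ℝ))
        Filter.atTop (nhds 1) := by
  classical
  obtain ⟨e, he⟩ : ∃ e : Fin s → ℕ, e = fun j => d j - 2 := ⟨_, rfl⟩
  have hde : ∀ j, e j + 2 = d j := fun j => by rw [he]; have := hd j; simp only; omega
  have hde1 : ∀ j, e j + 1 = d j - 1 := fun j => by have := hde j; omega
  have hsum : ∑ j, (e j + 2) ≤ n := by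
    rw [Finset.sum_congr rfl fun j _ => hde j]; exact hdn
  obtain ⟨h3s, hdeg⟩ := Pool.Agent.Y716.D.dims hs hn hsum
  have hcl := K4H64.Ff.class' (Pool.Agent.Y716.D.class_all (Fin (n + 1)) hs h3s e hdeg)
  -- primitive integral tuples
  obtain ⟨Z, hZ⟩ : ∃ Z : Set (K4H64.Ff.IT M), Z = {y | (∀ j, Pool.Agent.Y716.Q.Prim (y j)) ∧
    ∃ q ∈ Y, ∀ j, ∃ r : ℚ, r ≠ 0 ∧ ∀ k, q j k = r * (y j k : ℚ)} := ⟨_, rfl⟩
  obtain ⟨m, w, hm, hmw, hlim⟩ := K4H64.Ff.main (Fin (n + 1)) hs M e hcl Z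
    (fun y hy => by rw [hZ] at hy; exact hy.1)
  refine ⟨m, w, hm, hmw, ?_⟩
  refine K4H64.Ff.ratio_one (fun H : ℕ => K4H64.Ff.totZ (Fin (n + 1)) M e (H : ℝ))
    (fun H f => K4H64.Ff.Appr e Z (m H) (w H) (H : ℝ) f)
    (fun H f => Approximation d Y (m H) (w H) H f) (fun H => ofHeight n M d H)
    (fun H => {f | f ∈ ofHeight n M d H ∧ Approximation d Y (m H) (w H) H f}) ?_
    (fun H f => Iff.rfl) ?_ (fun H => K4H64.Ff.totZ_pos M e (Nat.cast_nonneg H)) hlim
  · intro H f
    rw [K4H64.Ff.mem_totZ]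
    unfold ofHeight
    simp only [Set.mem_setOf_eq, Pool.Agent.Y716.Q.isF_iff, hde]
  · intro H f _ hA y x yp xp hr hp hcl
    have hsm : ∑ j, (e j + 1) = ∑ j, (d j - 1) := Finset.sum_congr rfl fun j _ => hde1 j
    obtain ⟨q', hq', x', hx'1, hx'2, hx'3, hx'4, hx'5⟩ := hA y x yp xp
      ⟨hr.1.1, hr.1.2.1, hr.1.2.2, by
        obtain ⟨a, ha⟩ := hr.2
        refine ⟨a, ?_⟩
        rw [hsm]
        exact ha⟩
      (fun p hpf hpw => by
        obtain ⟨h1, a, ha⟩ := hp p hpw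
        refine ⟨h1.1, h1.2.1, h1.2.2, a, ?_⟩
        rw [hsm]
        rw [one_mul] at ha
        exact ha)
      (fun K hK => by
        obtain ⟨q, hqY, h1, h2⟩ := hcl K hK
        choose y' r hr0 hprim hqy using fun j => K4H64.Ff.exists_prim (q j) (hY q hqY j)
        refine ⟨y', ?_, fun j => ?_, fun p hpf hpw j => ?_⟩
        · rw [hZ]
          exact ⟨hprim, q, hqY, fun j => ⟨r j, hr0 j, hqy j⟩⟩
        · exact (K4H64.Ff.Close.scale (hr0 j) (hqy j)).mp (h1 j)
        · exact (K4H64.Ff.Close.scale (hr0 j) (hqy j)).mp (h2 p hpw j))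
    rw [hZ] at hq'
    obtain ⟨hprim, q, hqY, hqq⟩ := hq'
    choose r hr0 hqr using hqq
    refine ⟨q, hqY, fun i => (x' i : ℚ), ⟨hY q hqY, ?_, fun j => ?_⟩, ⟨fun j => ?_, hx'4⟩,
      fun p hpf hpm => ⟨fun j => ?_, (hx'5 p hpm).2⟩⟩
    · intro h0
      apply hx'1.ne_zero'
      funext i
      have := congrFun h0 i
      simp only [Pi.zero_apply] at this
      exact_mod_cast this
    · have h1 : ((MvPolynomial.eval x' (K4H64.Ff.sp f q' j) : ℤ) : ℚ) = 0 := by
        rw [hx'2 j, Int.cast_zero]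
      rw [K4H64.Ff.cast_eval, K4H64.Ff.aeval_sp] at h1
      have h2 : ∑ k, q j k * MvPolynomial.aeval (fun i => (x' i : ℚ)) (f j k) =
          r j * ∑ k, ((q' j k : ℤ) : ℚ) * MvPolynomial.aeval (fun i => (x' i : ℚ)) (f j k) := by
        rw [Finset.mul_sum]
        refine Finset.sum_congr rfl fun k _ => ?_
        rw [hqr j k, mul_assoc]
      rw [h2, h1, mul_zero]
    · exact (K4H64.Ff.Close.scale (hr0 j) (hqr j)).mpr (hx'3 j)
    · exact (K4H64.Ff.Close.scale (hr0 j) (hqr j)).mpr ((hx'5 p hpm).1 j)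

end Pool.Agent.Results.MP_e426f4_ag.RandomFanoFibrations
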